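import Mathlib
import Pool.Agent.Helper83.SubdirectDiv

/-!
# `MP_c671ed_lc`: subdirect products of division rings are not axiomatizable

Both readings of the question (unital and non-unital) are answered negatively.
-/

open FirstOrder

universe u

namespace Pool.Agent.Results.MP_c671ed_lc.NotAxiomatizable

/-- Unital reading: the unital ring `R` is a subdirect product of division rings, that is, there
are a family `(D i)` of division rings and an injective unital ring homomorphism
`φ : R → ∏ i, D i` all of whose components `R → D i` are surjective. -/
def IsSubdirectProduct (R : Type u) [Ring R] : Prop :=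
  ∃ (I : Type u) (D : I → Type u) (_ : ∀ i, DivisionRing (D i)) (φ : R →+* ∀ i, D i),
    Function.Injective φ ∧ ∀ i, Function.Surjective fun r => φ r i

/-- Non-unital reading: the (not necessarily unital) associative ring `R` is a subdirect product
of division rings, the homomorphisms not being required to preserve an identity element. -/
def IsSubdirectProductNU (R : Type u) [NonUnitalRing R] : Prop :=
  ∃ (I : Type u) (D : I → Type u) (_ : ∀ i, DivisionRing (D i)) (φ : R →ₙ+* ∀ i, D i),
    Function.Injective φ ∧ ∀ i, Function.Surjective fun r => φ r i

/-- Function symbols `+`, `·`, `-`, `0` of the language of not necessarily unital rings. -/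
inductive RngFunc : ℕ → Type
  | add : RngFunc 2
  | mul : RngFunc 2
  | neg : RngFunc 1
  | zero : RngFunc 0

/-- The first-order language `(+, ·, -, 0)` of not necessarily unital rings. -/
def rng : FirstOrder.Language.{0, 0} where
  Functions := RngFunc
  Relations := fun _ => Empty

/-- A not necessarily unital ring as a structure for the language `(+, ·, -, 0)`. -/
noncomputable instance rngStructure (R : Type u) [NonUnitalRing R] : rng.Structure R where
  funMap := fun {_} f => RngFunc.rec (motive := fun n _ => (Fin n → R) → R)
    (fun x => x 0 + x 1) (fun x => x 0 * x 1) (fun x => -x 0) (fun _ => 0) f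
  RelMap := fun {_} r => r.elim

/-- An injective ring homomorphism is an embedding of `rng`-structures. -/
noncomputable def rngEmbedding {M N : Type u} [Ring M] [Ring N] (φ : M →+* N) (h : Function.Injective φ) :
    M ↪[rng] N where
  toFun := φ
  inj' := h
  map_fun' := by
    intro n f x
    cases f
    · exact map_add φ _ _
    · exact map_mul φ _ _
    · exact map_neg φ _
    · exact map_zero φ
  map_rel' := fun {n} r => r.elim

/-- A ring isomorphism is an isomorphism of `rng`-structures. -/
noncomputable def rngEquiv {N : Type u} [Ring N] (σ : N ≃+* N) : N ≃[rng] N where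
  toEquiv := σ.toEquiv
  map_fun' := by
    intro n f x
    cases f
    · exact map_add σ _ _
    · exact map_mul σ _ _
    · exact map_neg σ _
    · exact map_zero σ
  map_rel' := fun {n} r => r.elim

/-- An injective ring homomorphism is an embedding for the language of rings. -/
def ringEmbedding {M N : Type u} [Ring M] [Ring N] [Ring.CompatibleRing M]
    [Ring.CompatibleRing N] (φ : M →+* N) (h : Function.Injective φ) :
    M ↪[Language.ring] N where
  toFun := φ
  inj' := h
  map_fun' := by
    intro n f x
    cases f <;> simp
  map_rel' := fun {n} r => r.elim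

/-- The class of subdirect products of division rings is not axiomatizable, neither in the unital
reading (unital rings, unital homomorphisms, language `(+, ·, -, 0, 1)`), nor in the non-unital
reading (not necessarily unital rings and homomorphisms, language `(+, ·, -, 0)`): no set of
first-order sentences has exactly the subdirect products of division rings as its models among
the rings. -/
theorem result :
    (¬ ∃ Th : Language.ring.Theory, ∀ (R : Type u) [Ring R] [Ring.CompatibleRing R],
        R ⊨ Th ↔ IsSubdirectProduct R) ∧
    (¬ ∃ Th : rng.Theory, ∀ (R : Type u) [NonUnitalRing R],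
        R ⊨ Th ↔ IsSubdirectProductNU R) := by
  obtain ⟨M, N, hM, hN, φ, hφ, haut, hres, s, hs, hkill⟩ := Pool.Agent.Helper83.exists_pair.{u}
  -- `M` is a subdirect product of division rings
  have hMsub : ∃ (I : Type u) (D : I → Type u) (_ : ∀ i, DivisionRing (D i))
      (ψ : M →+* ∀ i, D i), Function.Injective ψ ∧ ∀ i, Function.Surjective fun r => ψ r i := by
    choose D hD f hf hf0 using hres
    refine ⟨{r : M // r ≠ 0}, fun r => D r.1 r.2, fun r => hD r.1 r.2,
      RingHom.pi fun r => f r.1 r.2, ?_, fun r => hf r.1 r.2⟩
    rw [injective_iff_map_eq_zero]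
    intro a ha
    by_contra h
    exact hf0 a h (congrFun ha ⟨a, h⟩)
  constructor
  · rintro ⟨Th, hTh⟩
    let cM : Ring.CompatibleRing M := Ring.compatibleRingOfRing M
    let cN : Ring.CompatibleRing N := Ring.compatibleRingOfRing N
    have hel : Language.ring.ElementarilyEquivalent M N := by
      refine Pool.Agent.Helper83.elemEquiv_of_autos (ringEmbedding φ hφ) ?_
      intro n x a
      obtain ⟨σ, h1, h2⟩ := haut n x a
      exact ⟨Ring.languageEquivEquivRingEquiv.symm σ, h1, h2⟩
    have h1 : M ⊨ Th := (hTh M).2 hMsub
    have h2 : N ⊨ Th := hel.theory_model_iff.1 h1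
    obtain ⟨I, D, hD, ψ, hψ, hsurj⟩ := (hTh N).1 h2
    apply hs
    apply hψ
    rw [map_zero]
    funext i
    exact hkill (D i) (hD i) ((Pi.evalRingHom D i).comp ψ) (hsurj i)
  · rintro ⟨Th, hTh⟩
    have hel : rng.ElementarilyEquivalent M N := by
      refine Pool.Agent.Helper83.elemEquiv_of_autos (rngEmbedding φ hφ) ?_
      intro n x a
      obtain ⟨σ, h1, h2⟩ := haut n x a
      exact ⟨rngEquiv σ, h1, h2⟩
    have h1 : M ⊨ Th := by
      refine (hTh M).2 ?_
      obtain ⟨I, D, hD, ψ, hψ, hsurj⟩ := hMsub
      exact ⟨I, D, hD, ψ, hψ, hsurj⟩
    have h2 : N ⊨ Th := hel.theory_model_iff.1 h1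
    obtain ⟨I, D, hD, ψ, hψ, hsurj⟩ := (hTh N).1 h2
    apply hs
    apply hψ
    rw [map_zero]
    funext i
    -- a surjective homomorphism of a unital ring onto a division ring is unital
    have hone : ψ 1 i = 1 := by
      obtain ⟨x, hx⟩ := hsurj i 1
      have h3 : ψ (1 * x) i = ψ 1 i * ψ x i := by rw [map_mul]; rfl
      have hx' : ψ x i = 1 := hx
      rw [one_mul, hx', mul_one] at h3
      exact h3.symm
    let g : N →+* D i :=
      { toFun := fun r => ψ r i
        map_one' := hone
        map_mul' := fun x y => by rw [map_mul]; rfl
        map_zero' := by rw [map_zero]; rfl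
        map_add' := fun x y => by rw [map_add]; rfl }
    exact hkill (D i) (hD i) g (hsurj i)

end Pool.Agent.Results.MP_c671ed_lc.NotAxiomatizable
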